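import Pool.Agent.H855R3.MD.StmtsG

set_option autoImplicit false

open Filter Topology

namespace H855MD

theorem t_NUMG : S_NUMG := by
  intro c hc hlt
  set e := Real.exp 1 with he
  have he0 : 0 < e := Real.exp_pos 1
  set R : ℝ := 2 + 8 / c ^ 2 with hR
  have hR0 : 0 < R := by positivity
  set ρ := e / R with hρ
  have hρ0 : 0 < ρ := by positivity
  have hρ1 : ρ < 1 := by
    rw [hρ, div_lt_one hR0]
    exact hlt
  have ht := tendsto_pow_const_mul_const_pow_of_abs_lt_one 1 (by rwa [abs_of_pos hρ0] : |ρ| < 1)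
  have ht2 : Tendsto (fun n : ℕ => (2 * e) * ((n : ℝ) ^ 1 * ρ ^ n)) atTop (𝓝 0) := by
    simpa using ht.const_mul (2 * e)
  have hev := (ht2.eventually (gt_mem_nhds (zero_lt_one' ℝ))).and (eventually_ge_atTop 1)
  obtain ⟨n₀, hn₀⟩ := eventually_atTop.1 hev
  refine ⟨n₀, fun n hn => ?_⟩
  obtain ⟨h1, h2⟩ := hn₀ n hn
  rw [pow_one] at h1
  have hn1 : (1 : ℝ) ≤ n := by exact_mod_cast h2
  have hf : (0 : ℝ) < n.factorial := by exact_mod_cast n.factorial_pos
  have hA : ((n : ℝ) + 1) ^ (n + 1) / n.factorial ≤ ((n : ℝ) + 1) * e ^ (n + 1) := by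
    have h3 := Real.pow_div_factorial_le_exp ((n : ℝ) + 1) (by positivity) (n + 1)
    have h4 : Real.exp ((n : ℝ) + 1) = e ^ (n + 1) := by
      rw [he, ← Real.exp_nat_mul]
      congr 1
      push_cast
      ring
    rw [h4, Nat.factorial_succ, div_le_iff₀ (by positivity)] at h3
    rw [div_le_iff₀ hf]
    push_cast at h3
    calc ((n : ℝ) + 1) ^ (n + 1) ≤ e ^ (n + 1) * (((n : ℝ) + 1) * n.factorial) := h3
      _ = _ := by ring
  have hen : e ^ n = ρ ^ n * R ^ n := by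
    rw [hρ, div_pow]
    field_simp
  calc ((n : ℝ) + 1) ^ (n + 1) / n.factorial ≤ ((n : ℝ) + 1) * e ^ (n + 1) := hA
    _ ≤ (2 * (n : ℝ)) * e ^ (n + 1) := by gcongr; linarith
    _ = (2 * e) * ((n : ℝ) * ρ ^ n) * R ^ n := by
        rw [pow_succ, hen]
        ring
    _ < 1 * R ^ n := by gcongr
    _ = R ^ n := one_mul _

end H855MD
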